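import Pool.Agent.TH332.BL.Quot

/-! # Translations are Lipschitz on functions with a weak gradient in `L²` -/

set_option autoImplicit false

open Filter Topology MeasureTheory
open scoped InnerProductSpace ComplexConjugate ENNReal

namespace Pool.Agent.TH332.BL

variable {d : ℕ}

abbrev Smo : WithTop ℕ∞ := ((⊤ : ℕ∞) : WithTop ℕ∞)

/-- the weak derivative relation, complex version -/
def WDC (g h : X d → ℂ) (j : Fin d) : Prop :=
  ∀ φ : X d → ℂ, ContDiff ℝ Smo φ → HasCompactSupport φ →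
    ∫ x, g x * fderiv ℝ φ x (Pi.single j (1 : ℝ) : X d) = - ∫ x, h x * φ x

theorem real_wd {g h : X d → ℂ} (hg : MemLp g 2 volume) (hh : MemLp h 2 volume) (j : Fin d)
    (H : WDC g h j) (φ : X d → ℝ) (hφ : ContDiff ℝ Smo φ) (hφc : HasCompactSupport φ) :
    (∫ x, (g x).re * fderiv ℝ φ x (Pi.single j (1:ℝ)) = - ∫ x, (h x).re * φ x) ∧
    (∫ x, (g x).im * fderiv ℝ φ x (Pi.single j (1:ℝ)) = - ∫ x, (h x).im * φ x) := by
  have h1 := H (fun x => (φ x : ℂ)) (Complex.ofRealCLM.contDiff.comp hφ)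
    (hφc.comp_left (g := fun r : ℝ => (r:ℂ)) (by simp))
  have hd : ∀ x, fderiv ℝ (fun x => (φ x : ℂ)) x (Pi.single j (1 : ℝ) : X d) =
      ((fderiv ℝ φ x (Pi.single j (1 : ℝ) : X d) : ℝ) : ℂ) := by
    intro x
    have h2 : HasFDerivAt φ (fderiv ℝ φ x) x :=
      ((hφ.differentiable (by simp)) x).hasFDerivAt
    have h3 := (Complex.ofRealCLM.hasFDerivAt (x := φ x)).comp x h2
    have h4 : fderiv ℝ (fun x => (φ x : ℂ)) x = Complex.ofRealCLM.comp (fderiv ℝ φ x) := h3.fderiv
    rw [h4]; rfl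
  simp only [hd] at h1
  have m1 : MemLp (fun x => fderiv ℝ φ x (Pi.single j (1 : ℝ) : X d)) 2 volume :=
    ((hφ.continuous_fderiv (by simp)).clm_apply continuous_const).memLp_of_hasCompactSupport
      ((hφc.fderiv ℝ).comp_left (g := fun L : X d →L[ℝ] ℝ => L (Pi.single j (1:ℝ))) (by simp))
  have m2 : MemLp φ 2 volume := hφ.continuous.memLp_of_hasCompactSupport hφc
  have i1 : Integrable (fun x => g x * ((fderiv ℝ φ x (Pi.single j (1 : ℝ) : X d) : ℝ) : ℂ)) volume :=
    MemLp.integrable_mul hg m1.ofReal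
  have i2 : Integrable (fun x => h x * (φ x : ℂ)) volume := MemLp.integrable_mul hh m2.ofReal
  constructor
  · have h2 := congrArg Complex.re h1
    rw [← RCLike.re_to_complex, ← RCLike.re_to_complex, ← integral_re i1, map_neg, ← integral_re i2]
      at h2
    simpa using h2
  · have h2 := congrArg Complex.im h1
    rw [← RCLike.im_to_complex, ← RCLike.im_to_complex, ← integral_im i1, map_neg, ← integral_im i2]
      at h2
    simpa using h2

theorem part_le {u : X d → ℝ} {v : Fin d → X d → ℝ} (hu : MemLp u 2 volume)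
    (hv : ∀ i, MemLp (v i) 2 volume)
    (H : ∀ (i : Fin d) (φ : X d → ℝ), ContDiff ℝ Smo φ → HasCompactSupport φ →
      ∫ x, u x * fderiv ℝ φ x (Pi.single i (1:ℝ)) = - ∫ x, v i x * φ x) (j : Fin d) (t : ℝ) :
    ∫ x, (u (x - (Pi.single j t : X d)) - u x) ^ 2 ≤ t ^ 2 * ∫ x, (v j x) ^ 2 := by
  have hz : Pool.Agent.H456R3.S.H1 (u, v) := ⟨hu, hv, H⟩
  have h := Pool.Agent.H456R3.S.translate hz (Pi.single j (-t) : X d)
  have h2 : ∀ x : X d, x + (Pi.single j (-t) : X d) = x - (Pi.single j t : X d) := by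
    intro x; rw [Pi.single_neg, sub_eq_add_neg]
  have h1 : ∀ x, ∑ i, (Pi.single j (-t) : X d) i * v i x = -t * v j x := by
    intro x
    rw [Finset.sum_eq_single j]
    · simp
    · intro i _ hi; simp [hi]
    · simp
  simp only [h1, h2] at h
  have e1 : ∀ a : ℝ, ‖a‖ₑ ^ 2 = ENNReal.ofReal (a ^ 2) := by
    intro a
    rw [Real.enorm_eq_ofReal_abs, ← ENNReal.ofReal_pow (abs_nonneg _), sq_abs]
  simp only [e1] at h
  generalize (Pi.single j t : X d) = e at *
  have m1 : MemLp (fun x => u (x - e) - u x) 2 volume :=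
    (hu.comp_measurePreserving (measurePreserving_sub_right volume e)).sub hu
  have i1 : Integrable (fun x => (u (x - e) - u x) ^ 2) volume := m1.integrable_sq
  have i2 : Integrable (fun x => (-t * v j x) ^ 2) volume := ((hv j).const_mul (-t)).integrable_sq
  rw [← ofReal_integral_eq_lintegral_ofReal i1 (Eventually.of_forall fun x => sq_nonneg _),
    ← ofReal_integral_eq_lintegral_ofReal i2 (Eventually.of_forall fun x => sq_nonneg _),
    ENNReal.ofReal_le_ofReal_iff (integral_nonneg fun x => sq_nonneg _)] at h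
  refine h.trans (le_of_eq ?_)
  rw [← integral_const_mul]
  refine integral_congr_ae (Eventually.of_forall fun x => ?_)
  simp only
  ring

theorem lipV (M : Matrix (Fin d ⊕ Fin d) (Fin d ⊕ Fin d) ℝ) (j : Fin d) {g : X d → ℂ}
    (hg : MemLp g 2 volume) {h : Fin d → X d → ℂ} (hh : ∀ i, MemLp (h i) 2 volume)
    (H : ∀ i, WDC g (h i) i) (t : ℝ) :
    ‖(CV M j).U t (hg.toLp g) - hg.toLp g‖ ≤ Real.sqrt (∫ x, ‖h j x‖ ^ 2) * |t| := by
  have e0 : ∀ z : ℂ, ‖z‖ ^ 2 = z.re ^ 2 + z.im ^ 2 := by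
    intro z
    rw [← Complex.normSq_eq_norm_sq, Complex.normSq_apply]; ring
  have hU : (CV M j).U t (hg.toLp g) = (wf_memLp (Pi.single j t : X d) 0 hg).toLp _ :=
    W_toLp _ _ hg
  have h3 := part_le (u := fun x => (g x).re) (v := fun i x => (h i x).re) hg.re
    (fun i => (hh i).re) (fun i φ hφ hφc => (real_wd hg (hh i) i (H i) φ hφ hφc).1) j t
  have h4 := part_le (u := fun x => (g x).im) (v := fun i x => (h i x).im) hg.im
    (fun i => (hh i).im) (fun i φ hφ hφc => (real_wd hg (hh i) i (H i) φ hφ hφc).2) j t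
  rw [hU]
  generalize (Pi.single j t : X d) = e at *
  have m1 : MemLp (fun x => g (x - e) - g x) 2 volume :=
    (hg.comp_measurePreserving (measurePreserving_sub_right volume e)).sub hg
  have h1 : ‖(wf_memLp e 0 hg).toLp _ - hg.toLp g‖ ^ 2 = ∫ x, ‖g (x - e) - g x‖ ^ 2 := by
    rw [← MemLp.toLp_sub, toLp_norm_sq]
    refine integral_congr_ae (Eventually.of_forall fun x => ?_)
    simp only [Pi.sub_apply, wf, ch_zero_left, one_mul]
  have h2 : ∫ x, ‖g (x - e) - g x‖ ^ 2 =
      (∫ x, ((g (x - e)).re - (g x).re) ^ 2) + ∫ x, ((g (x - e)).im - (g x).im) ^ 2 := by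
    rw [← integral_add]
    · refine integral_congr_ae (Eventually.of_forall fun x => ?_)
      simp only [e0, Complex.sub_re, Complex.sub_im]
    · exact m1.re.integrable_sq.congr (Eventually.of_forall fun x => by simp)
    · exact m1.im.integrable_sq.congr (Eventually.of_forall fun x => by simp)
  have h5 : ∫ x, ‖h j x‖ ^ 2 = (∫ x, (h j x).re ^ 2) + ∫ x, (h j x).im ^ 2 := by
    rw [← integral_add]
    · refine integral_congr_ae (Eventually.of_forall fun x => ?_)
      simp only [e0]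
    · exact (hh j).re.integrable_sq
    · exact (hh j).im.integrable_sq
  have h6 : ‖(wf_memLp e 0 hg).toLp _ - hg.toLp g‖ ^ 2 ≤
      (Real.sqrt (∫ x, ‖h j x‖ ^ 2) * |t|) ^ 2 := by
    rw [h1, h2, mul_pow, Real.sq_sqrt (integral_nonneg fun x => by positivity), h5, sq_abs]
    linarith
  exact le_of_sq_le_sq h6 (by positivity)

end Pool.Agent.TH332.BL
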