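import Mathlib

/-! # Riesz bases and the synthesis operator -/

set_option autoImplicit false

open Filter Topology
open scoped InnerProductSpace ComplexConjugate

namespace Pool.Agent.TH332.BL

/-- the sequence space -/
abbrev L2 (K : Type*) : Type _ := lp (fun _ : K => ℂ) 2

section lp

variable {K K' : Type*}

theorem sq_summable (x : L2 K) : Summable fun k => ‖x k‖ ^ 2 := by
  have h := lp.memℓp x
  have h2 := h.summable (by norm_num)
  simpa using h2

theorem norm_sq (x : L2 K) : ‖x‖ ^ 2 = ∑' k, ‖x k‖ ^ 2 := by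
  have h := lp.norm_rpow_eq_tsum (p := 2) (by norm_num) x
  simpa using h

/-- comparison of norms -/
theorem norm_le_of_le (x : L2 K) (y : L2 K') (σ : K ≃ K') {C : ℝ} (hC : 0 ≤ C)
    (h : ∀ k, ‖x k‖ ≤ C * ‖y (σ k)‖) : ‖x‖ ≤ C * ‖y‖ := by
  have h1 : ‖x‖ ^ 2 ≤ (C * ‖y‖) ^ 2 := by
    rw [mul_pow, norm_sq, norm_sq, ← tsum_mul_left, ← σ.tsum_eq (fun k => C ^ 2 * ‖y k‖ ^ 2)]
    refine (sq_summable x).tsum_le_tsum (fun k => ?_) ?_
    · have := pow_le_pow_left₀ (norm_nonneg _) (h k) 2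
      rwa [mul_pow] at this
    · exact (σ.summable_iff.2 ((sq_summable y).mul_left (C ^ 2)))
  exact le_of_sq_le_sq h1 (by positivity)

end lp

variable {K : Type*} {H : Type*} [NormedAddCommGroup H] [InnerProductSpace ℂ H]

section RB

/-- Bessel inequality from the upper Riesz bound -/
theorem bessel (E : K → H) {B : ℝ} (hB : 0 ≤ B)
    (hup : ∀ (s : Finset K) (c : K → ℂ), ‖∑ k ∈ s, c k • E k‖ ^ 2 ≤ B * ∑ k ∈ s, ‖c k‖ ^ 2)
    (f : H) (s : Finset K) : ∑ k ∈ s, ‖⟪E k, f⟫_ℂ‖ ^ 2 ≤ B * ‖f‖ ^ 2 := by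
  set c : K → ℂ := fun k => ⟪E k, f⟫_ℂ with hc
  set S : ℝ := ∑ k ∈ s, ‖c k‖ ^ 2 with hS
  have hS0 : 0 ≤ S := Finset.sum_nonneg fun k _ => by positivity
  have h1 : ⟪∑ k ∈ s, c k • E k, f⟫_ℂ = (S : ℂ) := by
    rw [sum_inner, hS]
    push_cast
    refine Finset.sum_congr rfl fun k _ => ?_
    rw [inner_smul_left, hc]
    simp only
    rw [← Complex.normSq_eq_conj_mul_self, Complex.normSq_eq_norm_sq]
    push_cast; ring
  have h2 : S ≤ ‖∑ k ∈ s, c k • E k‖ * ‖f‖ := by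
    have h3 := norm_inner_le_norm (𝕜 := ℂ) (∑ k ∈ s, c k • E k) f
    rw [h1, Complex.norm_real, Real.norm_eq_abs, abs_of_nonneg hS0] at h3
    exact h3
  have h4 : S ^ 2 ≤ (B * S) * ‖f‖ ^ 2 := by
    calc S ^ 2 ≤ (‖∑ k ∈ s, c k • E k‖ * ‖f‖) ^ 2 := pow_le_pow_left₀ hS0 h2 2
      _ = ‖∑ k ∈ s, c k • E k‖ ^ 2 * ‖f‖ ^ 2 := by ring
      _ ≤ _ := mul_le_mul_of_nonneg_right (hup s c) (by positivity)
  rcases hS0.eq_or_lt with h5 | h5
  · rw [← h5]; positivity
  · nlinarith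

theorem bessel_memℓp (E : K → H) {B : ℝ} (hB : 0 ≤ B)
    (hup : ∀ (s : Finset K) (c : K → ℂ), ‖∑ k ∈ s, c k • E k‖ ^ 2 ≤ B * ∑ k ∈ s, ‖c k‖ ^ 2)
    (f : H) : Memℓp (fun k => ⟪E k, f⟫_ℂ) 2 := by
  apply memℓp_gen
  have h : Summable fun k => ‖⟪E k, f⟫_ℂ‖ ^ 2 :=
    summable_of_sum_le (fun k => by positivity) (fun s => bessel E hB hup f s)
  simpa using h

/-- the analysis operator -/
noncomputable def ana (E : K → H) {B : ℝ} (hB : 0 ≤ B)
    (hup : ∀ (s : Finset K) (c : K → ℂ), ‖∑ k ∈ s, c k • E k‖ ^ 2 ≤ B * ∑ k ∈ s, ‖c k‖ ^ 2) :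
    H →L[ℂ] L2 K :=
  LinearMap.mkContinuous
    { toFun := fun f => ⟨fun k => ⟪E k, f⟫_ℂ, bessel_memℓp E hB hup f⟩
      map_add' := fun f g => by
        ext k
        exact inner_add_right _ _ _
      map_smul' := fun a f => by
        ext k
        exact inner_smul_right _ _ _ } (Real.sqrt B) (by
      intro f
      have h : ‖(⟨fun k => ⟪E k, f⟫_ℂ, bessel_memℓp E hB hup f⟩ : L2 K)‖ ^ 2 ≤ (Real.sqrt B * ‖f‖) ^ 2 := by
        rw [norm_sq, mul_pow, Real.sq_sqrt hB]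
        exact Real.tsum_le_of_sum_le (fun k => by positivity) (fun s => bessel E hB hup f s)
      exact le_of_sq_le_sq h (by positivity))

theorem ana_apply (E : K → H) {B : ℝ} (hB : 0 ≤ B)
    (hup : ∀ (s : Finset K) (c : K → ℂ), ‖∑ k ∈ s, c k • E k‖ ^ 2 ≤ B * ∑ k ∈ s, ‖c k‖ ^ 2)
    (f : H) (k : K) : ana E hB hup f k = ⟪E k, f⟫_ℂ := rfl

variable [CompleteSpace H]

/-- the synthesis operator of a Riesz basis is an isomorphism -/
theorem exists_T [DecidableEq K] (E : K → H) {A B : ℝ} (hA : 0 < A) (hB : 0 ≤ B)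
    (hlow : ∀ (s : Finset K) (c : K → ℂ), A * ∑ k ∈ s, ‖c k‖ ^ 2 ≤ ‖∑ k ∈ s, c k • E k‖ ^ 2)
    (hup : ∀ (s : Finset K) (c : K → ℂ), ‖∑ k ∈ s, c k • E k‖ ^ 2 ≤ B * ∑ k ∈ s, ‖c k‖ ^ 2)
    (hcomp : ∀ h : H, (∀ k, ⟪E k, h⟫_ℂ = 0) → h = 0) :
    ∃ T : L2 K ≃L[ℂ] H, ∀ k, T (lp.single 2 k (1:ℂ)) = E k := by
  set R := ana E hB hup with hR
  set T := R.adjoint with hT
  have hTe : ∀ k (a : ℂ), T (lp.single 2 k a) = a • E k := by
    intro k a
    refine ext_inner_right ℂ fun f => ?_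
    rw [hT, ContinuousLinearMap.adjoint_inner_left, lp.inner_single_left, inner_smul_left, hR,
      ana_apply]
    simp [mul_comm]
  have hsum : ∀ x : L2 K, HasSum (fun k => x k • E k) (T x) := by
    intro x
    have h := (lp.hasSum_single (p := 2) (by norm_num) x).mapL T
    simpa only [hTe] using h
  have hlow' : ∀ x : L2 K, A * ‖x‖ ^ 2 ≤ ‖T x‖ ^ 2 := by
    intro x
    rw [norm_sq, ← tsum_mul_left]
    have h1 : Tendsto (fun s : Finset K => ‖∑ k ∈ s, x k • E k‖ ^ 2) atTop (𝓝 (‖T x‖ ^ 2)) :=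
      ((hsum x).norm).pow 2
    have h2 : Tendsto (fun s : Finset K => ∑ k ∈ s, A * ‖x k‖ ^ 2) atTop
        (𝓝 (∑' k, A * ‖x k‖ ^ 2)) := ((sq_summable x).mul_left A).hasSum
    refine le_of_tendsto_of_tendsto' h2 h1 fun s => ?_
    rw [← Finset.mul_sum]
    exact hlow s _
  have hanti : AntilipschitzWith (Real.toNNReal (1 / Real.sqrt A)) T := by
    apply ContinuousLinearMap.antilipschitz_of_bound
    intro x
    have hsA : 0 < Real.sqrt A := Real.sqrt_pos.2 hA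
    rw [Real.coe_toNNReal _ (by positivity), one_div, inv_mul_eq_div, le_div_iff₀ hsA]
    refine le_of_sq_le_sq ?_ (norm_nonneg _)
    rw [mul_pow, Real.sq_sqrt hA.le, mul_comm]
    exact hlow' x
  have hinj : Function.Injective T := hanti.injective
  have hker : R.ker = ⊥ := by
    rw [LinearMap.ker_eq_bot']
    intro f hf
    refine hcomp f fun k => ?_
    have : (R f) k = 0 := by
      have hf' : R f = 0 := hf
      rw [hf']; rfl
    rwa [hR, ana_apply] at this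
  have hclosed : IsClosed (Set.range T) := hanti.isClosed_range T.uniformContinuous
  have hrange : T.range = ⊤ := by
    have h1 : IsClosed (T.range : Set H) := by
      convert hclosed using 1
      ext y; simp
    have h2 : T.rangeᗮ = ⊥ := by
      rw [hT, ContinuousLinearMap.orthogonal_range, ContinuousLinearMap.adjoint_adjoint, hker]
    have : T.range.HasOrthogonalProjection := by
      have : CompleteSpace T.range := h1.completeSpace_coe
      infer_instance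
    rw [← Submodule.orthogonal_orthogonal T.range, h2, Submodule.bot_orthogonal_eq_top]
  refine ⟨ContinuousLinearEquiv.ofBijective T (LinearMap.ker_eq_bot.2 hinj) hrange, fun k => ?_⟩
  rw [ContinuousLinearEquiv.coeFn_ofBijective, hTe, one_smul]

end RB

end Pool.Agent.TH332.BL
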