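import Pool.Agent.TH332.BL.Abs

/-! # The Balian-Low obstruction, abstract form -/

set_option autoImplicit false

open Filter Topology
open scoped InnerProductSpace ComplexConjugate

namespace Pool.Agent.TH332.BL

variable {K : Type*} [AddCommGroup K] {H : Type*} [NormedAddCommGroup H] [InnerProductSpace ℂ H]

/-- a projective unitary representation -/
structure TF (K H : Type*) [AddCommGroup K] [NormedAddCommGroup H] [InnerProductSpace ℂ H] where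
  π : K → H →ₗᵢ[ℂ] H
  c : K → K → ℂ
  hc : ∀ k l, ‖c k l‖ = 1
  hπ : ∀ k l f h, ⟪π k f, π l h⟫_ℂ = c k l * ⟪f, π (l - k) h⟫_ℂ
  hπ0 : ∀ f, π 0 f = f

/-- a family of unitaries that commute with the representation up to phases -/
structure Cov (S : TF K H) where
  U : ℝ → H →ₗᵢ[ℂ] H
  ω : ℝ → K → ℂ
  hω : ∀ s k, ‖ω s k‖ = 1
  hω0 : ∀ s, ω s 0 = 1
  hU : ∀ s k f, U s (S.π k f) = ω s k • S.π k (U s f)
  hinv : ∀ s f, U s (U (-s) f) = f
  hlim : ∀ k, Tendsto (fun s => ω s k) (𝓝 0) (𝓝 1)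

theorem Cov.adj {S : TF K H} (C : Cov S) (s : ℝ) (f h : H) :
    ⟪C.U s f, h⟫_ℂ = ⟪f, C.U (-s) h⟫_ℂ := by
  conv_lhs => rw [← C.hinv s h]
  exact LinearIsometry.inner_map_map _ _ _

theorem Cov.adj' {S : TF K H} (C : Cov S) (s : ℝ) (f h : H) :
    ⟪C.U (-s) f, h⟫_ℂ = ⟪f, C.U s h⟫_ℂ := by
  rw [C.adj, neg_neg]

theorem conj_mul_self_of_norm {z : ℂ} (h : ‖z‖ = 1) : conj z * z = 1 := by
  rw [← Complex.normSq_eq_conj_mul_self, Complex.normSq_eq_norm_sq, h]; simp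

section mul2

variable {K : Type*}

theorem mul2_mem (ψ : K → ℂ) (hψ : ∀ k, ‖ψ k‖ ≤ 2) (x : L2 K) :
    Memℓp (fun k => ψ k * x k) 2 := by
  apply memℓp_gen
  have h : Summable fun k => ‖ψ k * x k‖ ^ 2 := by
    refine Summable.of_nonneg_of_le (fun k => by positivity) (fun k => ?_)
      ((sq_summable x).mul_left 4)
    rw [norm_mul, mul_pow]
    have := pow_le_pow_left₀ (norm_nonneg _) (hψ k) 2
    nlinarith [sq_nonneg ‖x k‖]
  simpa using h

/-- multiplication by a bounded sequence -/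
noncomputable def mul2 (ψ : K → ℂ) (hψ : ∀ k, ‖ψ k‖ ≤ 2) (x : L2 K) : L2 K :=
  ⟨fun k => ψ k * x k, mul2_mem ψ hψ x⟩

theorem mul2_apply (ψ : K → ℂ) (hψ : ∀ k, ‖ψ k‖ ≤ 2) (x : L2 K) (k : K) :
    mul2 ψ hψ x k = ψ k * x k := rfl

theorem mul2_norm_le (ψ : K → ℂ) (hψ : ∀ k, ‖ψ k‖ ≤ 2) (x : L2 K) :
    ‖mul2 ψ hψ x‖ ≤ 2 * ‖x‖ :=
  norm_le_of_le _ _ (Equiv.refl K) (by norm_num) fun k => by
    rw [mul2_apply, norm_mul]
    exact mul_le_mul_of_nonneg_right (hψ k) (norm_nonneg _)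

theorem mul2_sub (ψ : K → ℂ) (hψ : ∀ k, ‖ψ k‖ ≤ 2) (x y : L2 K) :
    mul2 ψ hψ (x - y) = mul2 ψ hψ x - mul2 ψ hψ y := by
  ext k
  simp only [lp.coeFn_sub, Pi.sub_apply, mul2_apply]
  ring

theorem mul2_smul (ψ : K → ℂ) (hψ : ∀ k, ‖ψ k‖ ≤ 2) (a : ℂ) (x : L2 K) :
    mul2 ψ hψ (a • x) = a • mul2 ψ hψ x := by
  ext k
  simp only [lp.coeFn_smul, Pi.smul_apply, mul2_apply, smul_eq_mul]
  ring

theorem mul2_tendsto {ι : Type*} {l : Filter ι} (ψ : ι → K → ℂ) (hψ : ∀ i k, ‖ψ i k‖ ≤ 2)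
    (h : ∀ k, Tendsto (fun i => ψ i k) l (𝓝 0)) (x : L2 K) :
    Tendsto (fun i => ‖mul2 (ψ i) (hψ i) x‖) l (𝓝 0) := by
  have h1 : Tendsto (fun i => ‖mul2 (ψ i) (hψ i) x‖ ^ 2) l (𝓝 0) := by
    simp only [norm_sq, mul2_apply]
    have h2 : Tendsto (fun i => ∑' k, ‖ψ i k * x k‖ ^ 2) l (𝓝 (∑' _ : K, (0:ℝ))) := by
      refine tendsto_tsum_of_dominated_convergence ((sq_summable x).mul_left 4) (fun k => ?_) ?_
      · have h3 : Tendsto (fun i => ‖ψ i k * x k‖ ^ 2) l (𝓝 (‖0 * x k‖ ^ 2)) :=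
          (((h k).mul_const (x k)).norm).pow 2
        simpa using h3
      · refine Eventually.of_forall fun i k => ?_
        rw [Real.norm_eq_abs, abs_of_nonneg (by positivity), norm_mul, mul_pow]
        have := pow_le_pow_left₀ (norm_nonneg _) (hψ i k) 2
        nlinarith [sq_nonneg ‖x k‖]
    simpa using h2
  have h2 := h1.sqrt
  simpa using h2

end mul2

variable [CompleteSpace H] {S : TF K H}

/-- the dual family -/
noncomputable def Gam [DecidableEq K] (T : L2 K ≃L[ℂ] H) (k : K) : H :=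
  (T.symm : H →L[ℂ] L2 K).adjoint (lp.single 2 k (1:ℂ))

section dual

variable [DecidableEq K] (T : L2 K ≃L[ℂ] H) (g : H)

theorem gam_inner (k : K) (f : H) : ⟪Gam T k, f⟫_ℂ = T.symm f k := by
  unfold Gam
  rw [ContinuousLinearMap.adjoint_inner_left, lp.inner_single_left]
  simp

theorem gam_inner' (k : K) (f : H) : ⟪f, Gam T k⟫_ℂ = conj (T.symm f k) := by
  rw [← gam_inner, inner_conj_symm]

/-- analysis operator -/
noncomputable def RR : H →L[ℂ] L2 K := (T : L2 K →L[ℂ] H).adjoint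

variable {T g} (hT : ∀ k, T (lp.single 2 k (1:ℂ)) = S.π k g)
include hT

theorem rr_apply (f : H) (k : K) : RR T f k = ⟪S.π k g, f⟫_ℂ := by
  have h : ⟪lp.single 2 k (1:ℂ), RR T f⟫_ℂ = ⟪T (lp.single 2 k (1:ℂ)), f⟫_ℂ := by
    unfold RR
    rw [ContinuousLinearMap.adjoint_inner_right]; rfl
  rw [lp.inner_single_left, hT] at h
  simpa using h

omit hT in
theorem inner_eq (f h : H) : ⟪f, h⟫_ℂ = ⟪T.symm f, RR T h⟫_ℂ := by
  unfold RR
  rw [ContinuousLinearMap.adjoint_inner_right]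
  simp

theorem gam_pi (k l : K) : ⟪Gam T k, S.π l g⟫_ℂ = if k = l then 1 else 0 := by
  rw [gam_inner, ← hT l, ContinuousLinearEquiv.symm_apply_apply, lp.single_apply]
  by_cases h : k = l
  · subst h; simp
  · simp [h]

theorem gam_zero : ⟪Gam T 0, g⟫_ℂ = 1 := by
  have := gam_pi (S := S) hT 0 0
  rwa [S.hπ0, if_pos rfl] at this

theorem c_self (k : K) : S.c k k = 1 := by
  have h1 := S.hπ k k g g
  rw [LinearIsometry.inner_map_map, sub_self, S.hπ0] at h1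
  have h2 : g ≠ 0 := by
    rintro h0
    have := gam_zero (S := S) hT
    rw [h0, inner_zero_right] at this
    exact zero_ne_one this
  have h3 : ⟪g, g⟫_ℂ ≠ 0 := inner_self_ne_zero.2 h2
  exact mul_right_cancel₀ h3 (by rw [← h1, one_mul])

theorem gam_eq (hcomp : ∀ h : H, (∀ k, ⟪S.π k g, h⟫_ℂ = 0) → h = 0) (k : K) :
    Gam T k = S.π k (Gam T 0) := by
  rw [← sub_eq_zero]
  refine hcomp _ fun l => ?_
  rw [inner_sub_right, sub_eq_zero, ← inner_conj_symm, gam_pi hT k l, ← inner_conj_symm (S.π l g),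
    S.hπ, gam_pi hT 0 (l - k)]
  by_cases h : k = l
  · subst h
    rw [c_self hT]; simp
  · rw [if_neg h, if_neg (fun h2 => h (sub_eq_zero.1 h2.symm).symm)]; simp

omit hT in
theorem symm_le (f : H) : ‖T.symm f‖ ≤ ‖(T.symm : H →L[ℂ] L2 K)‖ * ‖f‖ :=
  (T.symm : H →L[ℂ] L2 K).le_opNorm f

omit hT in
theorem le_rr (f : H) : ‖f‖ ≤ ‖(T.symm : H →L[ℂ] L2 K)‖ * ‖RR T f‖ := by
  have h : (T.symm : H →L[ℂ] L2 K).adjoint (RR T f) = f := by
    refine ext_inner_right ℂ fun h => ?_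
    unfold RR
    rw [ContinuousLinearMap.adjoint_inner_left, ContinuousLinearMap.adjoint_inner_left]
    simp
  calc ‖f‖ = ‖(T.symm : H →L[ℂ] L2 K).adjoint (RR T f)‖ := by rw [h]
    _ ≤ ‖(T.symm : H →L[ℂ] L2 K).adjoint‖ * ‖RR T f‖ := ContinuousLinearMap.le_opNorm _ _
    _ = _ := by rw [LinearIsometryEquiv.norm_map]

/-- **Regularity of the dual window.** -/
theorem dual_lip (hcomp : ∀ h : H, (∀ k, ⟪S.π k g, h⟫_ℂ = 0) → h = 0) (C : Cov S) (s : ℝ) :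
    ‖C.U s (Gam T 0) - Gam T 0‖ ≤ ‖(T.symm : H →L[ℂ] L2 K)‖ ^ 2 * ‖C.U s g - g‖ := by
  set N := ‖(T.symm : H →L[ℂ] L2 K)‖ with hN
  have hN0 : 0 ≤ N := norm_nonneg _
  set γ := Gam T 0 with hγ
  set η := C.U s g - g with hη
  have hk : ∀ k, RR T (C.U s γ - γ) k = - ⟪S.π k η, C.U s γ⟫_ℂ := by
    intro k
    rw [rr_apply hT, inner_sub_right]
    have h1 : ⟪C.U s (S.π k g), C.U s γ⟫_ℂ = ⟪S.π k g, γ⟫_ℂ := LinearIsometry.inner_map_map _ _ _
    rw [C.hU, inner_smul_left] at h1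
    have h2 : ⟪S.π k (C.U s g), C.U s γ⟫_ℂ = ⟪S.π k g, γ⟫_ℂ := by
      have h3 : ⟪S.π k g, γ⟫_ℂ = if (0:K) = k then 1 else 0 := by
        rw [← inner_conj_symm, hγ, gam_pi hT]
        split_ifs <;> simp
      by_cases h0 : (0:K) = k
      · subst h0
        rwa [C.hω0, map_one, one_mul] at h1
      · rw [h3, if_neg h0] at h1 ⊢
        refine (mul_eq_zero.1 h1).resolve_left ?_
        intro h4
        have := C.hω s k
        rw [← RCLike.norm_conj, h4, norm_zero] at this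
        exact zero_ne_one this
    rw [← h2, hη, map_sub, inner_sub_left]
    ring
  have hle : ‖RR T (C.U s γ - γ)‖ ≤ 1 * ‖T.symm (C.U (-s) η)‖ := by
    refine norm_le_of_le _ _ (Equiv.neg K) zero_le_one fun k => ?_
    rw [hk, norm_neg, one_mul, Equiv.neg_apply]
    have h1 : ⟪S.π k η, C.U s γ⟫_ℂ = S.c k 0 * ⟪η, S.π (0 - k) (C.U s γ)⟫_ℂ := by
      rw [← S.hπ, S.hπ0]
    have h2 : ⟪C.U (-s) η, Gam T (-k)⟫_ℂ = C.ω s (-k) * ⟪η, S.π (-k) (C.U s γ)⟫_ℂ := by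
      rw [C.adj', gam_eq hT hcomp, C.hU, inner_smul_right]
    rw [gam_inner'] at h2
    rw [h1, norm_mul, S.hc, one_mul, zero_sub, ← RCLike.norm_conj (T.symm _ _), h2, norm_mul, C.hω,
      one_mul]
  calc ‖C.U s γ - γ‖ ≤ N * ‖RR T (C.U s γ - γ)‖ := le_rr _
    _ ≤ N * (1 * ‖T.symm (C.U (-s) η)‖) := by gcongr
    _ ≤ N * (1 * (N * ‖C.U (-s) η‖)) := by
        gcongr
        exact symm_le _
    _ = N ^ 2 * ‖η‖ := by rw [LinearIsometry.norm_map]; ring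

end dual

end Pool.Agent.TH332.BL
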