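import Pool.Agent.TH332.BL.Main

/-! # The Balian-Low obstruction, abstract form: conclusion -/

set_option autoImplicit false
set_option linter.unusedSectionVars false

open Filter Topology
open scoped InnerProductSpace ComplexConjugate

namespace Pool.Agent.TH332.BL

variable {K : Type*} [AddCommGroup K] [DecidableEq K] {H : Type*} [NormedAddCommGroup H]
  [InnerProductSpace ℂ H] [CompleteSpace H] {S : TF K H}

variable {T : L2 K ≃L[ℂ] H} {g : H}

/-- the phases -/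
noncomputable def psi (CU CV : Cov S) (s : ℝ) (k : K) : ℂ :=
  conj (CV.ω (-s) (-k)) * CU.ω (-s) (-k) - 1

theorem psi_le (CU CV : Cov S) (s : ℝ) (k : K) : ‖psi CU CV s k‖ ≤ 2 := by
  unfold psi
  refine (norm_sub_le _ _).trans ?_
  rw [norm_mul, RCLike.norm_conj, CV.hω, CU.hω, norm_one]
  norm_num

theorem psi_tendsto (CU CV : Cov S) (k : K) : Tendsto (fun s => psi CU CV s k) (𝓝 0) (𝓝 0) := by
  have hneg : Tendsto (fun s : ℝ => -s) (𝓝 0) (𝓝 0) := by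
    have := (continuous_neg (G := ℝ)).tendsto 0
    simpa using this
  have h1 := ((CV.hlim (-k)).comp hneg)
  have h2 := ((CU.hlim (-k)).comp hneg)
  have h3 := ((Complex.continuous_conj.tendsto _).comp h1).mul h2
  have h4 := h3.sub_const 1
  simpa [psi, Function.comp] using h4

theorem delta1 (hT : ∀ k, T (lp.single 2 k (1:ℂ)) = S.π k g)
    (hcomp : ∀ h : H, (∀ k, ⟪S.π k g, h⟫_ℂ = 0) → h = 0) (k : K) :
    ⟪S.π k (Gam T 0), g⟫_ℂ = if k = 0 then 1 else 0 := by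
  have := gam_pi (S := S) hT k 0
  rwa [S.hπ0, gam_eq hT hcomp] at this

theorem delta2 (hT : ∀ k, T (lp.single 2 k (1:ℂ)) = S.π k g) (k : K) :
    ⟪S.π k g, Gam T 0⟫_ℂ = if k = 0 then 1 else 0 := by
  rw [← inner_conj_symm, gam_pi hT]
  by_cases h : k = 0
  · subst h; simp
  · rw [if_neg h, if_neg (fun h2 => h h2.symm)]; simp

/-- coordinates of `V s g - g` -/
theorem coordA (hT : ∀ k, T (lp.single 2 k (1:ℂ)) = S.π k g)
    (hcomp : ∀ h : H, (∀ k, ⟪S.π k g, h⟫_ℂ = 0) → h = 0) (CV : Cov S) (s : ℝ) (k : K) :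
    T.symm (CV.U s g - g) k =
      (conj (CV.ω (-s) k) * S.c k 0 * conj (RR T (CV.U (-s) (Gam T 0) - Gam T 0) (-k)) : ℂ) := by
  rw [← gam_inner, gam_eq hT hcomp, inner_sub_right]
  have h1 : ⟪S.π k (Gam T 0), CV.U s g⟫_ℂ =
      conj (CV.ω (-s) k) * ⟪S.π k (CV.U (-s) (Gam T 0)), g⟫_ℂ := by
    rw [← CV.adj', CV.hU, inner_smul_left]
  have h2 : S.π k (CV.U (-s) (Gam T 0)) =
      S.π k (CV.U (-s) (Gam T 0) - Gam T 0) + S.π k (Gam T 0) := by
    rw [map_sub, sub_add_cancel]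
  rw [h1, h2, inner_add_left, mul_add, delta1 hT hcomp]
  have h3 : conj (CV.ω (-s) k) * (if k = 0 then (1:ℂ) else 0) = if k = 0 then 1 else 0 := by
    by_cases h : k = 0
    · subst h; rw [CV.hω0]; simp
    · simp [h]
  rw [h3, add_sub_cancel_right]
  generalize CV.U (-s) (Gam T 0) - Gam T 0 = b'
  have h4 : ⟪S.π k b', g⟫_ℂ = S.c k 0 * ⟪b', S.π (0 - k) g⟫_ℂ := by
    rw [← S.hπ, S.hπ0]
  rw [h4, rr_apply hT, inner_conj_symm, zero_sub]
  ring

/-- coordinates of `U s γ - γ` -/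
theorem coordB (hT : ∀ k, T (lp.single 2 k (1:ℂ)) = S.π k g)
    (hcomp : ∀ h : H, (∀ k, ⟪S.π k g, h⟫_ℂ = 0) → h = 0) (CU : Cov S) (s : ℝ) (k : K) :
    RR T (CU.U s (Gam T 0) - Gam T 0) k =
      (conj (CU.ω (-s) k) * S.c k 0 * conj (T.symm (CU.U (-s) g - g) (-k)) : ℂ) := by
  rw [rr_apply hT, inner_sub_right]
  have h1 : ⟪S.π k g, CU.U s (Gam T 0)⟫_ℂ =
      conj (CU.ω (-s) k) * ⟪S.π k (CU.U (-s) g), Gam T 0⟫_ℂ := by
    rw [← CU.adj', CU.hU, inner_smul_left]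
  have h2 : S.π k (CU.U (-s) g) = S.π k (CU.U (-s) g - g) + S.π k g := by
    rw [map_sub, sub_add_cancel]
  rw [h1, h2, inner_add_left, mul_add, delta2 hT]
  have h3 : conj (CU.ω (-s) k) * (if k = 0 then (1:ℂ) else 0) = if k = 0 then 1 else 0 := by
    by_cases h : k = 0
    · subst h; rw [CU.hω0]; simp
    · simp [h]
  rw [h3, add_sub_cancel_right]
  generalize CU.U (-s) g - g = a'
  have h4 : ⟪S.π k a', Gam T 0⟫_ℂ = S.c k 0 * ⟪a', S.π (0 - k) (Gam T 0)⟫_ℂ := by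
    rw [← S.hπ, S.hπ0]
  rw [h4, zero_sub, ← gam_eq hT hcomp, gam_inner']
  ring

theorem inner_l2 (x y : L2 K) : ⟪x, y⟫_ℂ = ∑' k, conj (x k) * y k := by
  rw [lp.inner_eq_tsum]
  refine tsum_congr fun k => ?_
  rw [RCLike.inner_apply, mul_comm]

theorem summable_l2 (x y : L2 K) : Summable fun k => conj (x k) * y k := by
  have h := lp.summable_inner (𝕜 := ℂ) x y
  refine h.congr fun k => ?_
  rw [RCLike.inner_apply, mul_comm]

theorem key_lp (x y XA YB : L2 K) (a b c : K → ℂ) (hc : ∀ k, ‖c k‖ = 1)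
    (hA : ∀ k, XA k = conj (a k) * c k * conj (y (-k)))
    (hB : ∀ k, YB k = conj (b k) * c k * conj (x (-k))) :
    ⟪XA, YB⟫_ℂ - ⟪x, y⟫_ℂ = ∑' k, (a (-k) * conj (b (-k)) - 1) * (conj (x k) * y k) := by
  have e1 : ⟪XA, YB⟫_ℂ = ∑' k, conj (XA (-k)) * YB (-k) := by
    rw [inner_l2]
    exact ((Equiv.neg K).tsum_eq (fun k => conj (XA k) * YB k)).symm
  have hF' : Summable fun k => conj (XA (-k)) * YB (-k) := 
    (Equiv.neg K).summable_iff.2 (summable_l2 XA YB)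
  rw [e1, inner_l2, ← hF'.tsum_sub (summable_l2 x y)]
  refine tsum_congr fun k => ?_
  have hc := conj_mul_self_of_norm (hc (-k))
  have h1 : XA (-k) = conj (a (-k)) * c (-k) * conj (y k) := by
    have := hA (-k); rwa [neg_neg] at this
  have h2 : YB (-k) = conj (b (-k)) * c (-k) * conj (x k) := by
    have := hB (-k); rwa [neg_neg] at this
  rw [h1, h2]
  simp only [map_mul, Complex.conj_conj]
  linear_combination (conj (x k) * y k * a (-k) * conj (b (-k))) * hc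

/-- the key identity -/
theorem key (hT : ∀ k, T (lp.single 2 k (1:ℂ)) = S.π k g)
    (hcomp : ∀ h : H, (∀ k, ⟪S.π k g, h⟫_ℂ = 0) → h = 0) (CU CV : Cov S) (s : ℝ) :
    ⟪CV.U s g - g, CU.U s (Gam T 0) - Gam T 0⟫_ℂ -
      ⟪CU.U (-s) g - g, CV.U (-s) (Gam T 0) - Gam T 0⟫_ℂ =
    ⟪mul2 (psi CU CV s) (psi_le CU CV s) (T.symm (CU.U (-s) g - g)),
      RR T (CV.U (-s) (Gam T 0) - Gam T 0)⟫_ℂ := by
  have h := key_lp (T.symm (CU.U (-s) g - g)) (RR T (CV.U (-s) (Gam T 0) - Gam T 0))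
    (T.symm (CV.U s g - g)) (RR T (CU.U s (Gam T 0) - Gam T 0)) (CV.ω (-s)) (CU.ω (-s))
    (fun k => S.c k 0) (fun k => S.hc k 0) (coordA hT hcomp CV s) (coordB hT hcomp CU s)
  rw [← inner_eq (T := T), ← inner_eq (T := T)] at h
  rw [h, inner_l2]
  refine tsum_congr fun k => ?_
  rw [mul2_apply, psi]
  simp only [map_mul, map_sub, map_one, Complex.conj_conj]
  ring

/-- **Abstract Balian-Low theorem.** -/
theorem balian_low (hT : ∀ k, T (lp.single 2 k (1:ℂ)) = S.π k g)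
    (hcomp : ∀ h : H, (∀ k, ⟪S.π k g, h⟫_ℂ = 0) → h = 0) (CU CV : Cov S) {θ : ℝ} (hθ : θ ≠ 0)
    (hUV : ∀ s t f, CU.U s (CV.U t f) = Complex.exp (Complex.I * (θ * s * t)) • CV.U t (CU.U s f))
    {g' : H} (hU : Tendsto (fun s : ℝ => ((s : ℂ)⁻¹) • (CU.U s g - g)) (𝓝[≠] 0) (𝓝 g'))
    {M : ℝ} (hV : ∀ t, ‖CV.U t g - g‖ ≤ M * |t|) : False := by
  set γ := Gam T 0 with hγ
  set N := ‖(T.symm : H →L[ℂ] L2 K)‖ with hN
  have hN0 : 0 ≤ N := norm_nonneg _
  have hneg : Tendsto (fun s : ℝ => -s) (𝓝[≠] 0) (𝓝[≠] 0) := by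
    have h1 : Tendsto (fun s : ℝ => -s) (𝓝 0) (𝓝 0) := by
      simpa using (continuous_neg (G := ℝ)).tendsto 0
    refine tendsto_nhdsWithin_iff.2 ⟨h1.mono_left nhdsWithin_le_nhds, ?_⟩
    filter_upwards [self_mem_nhdsWithin] with s hs
    exact neg_ne_zero.2 hs
  -- convergence of the difference quotients at `-s`
  have hU' : Tendsto (fun s : ℝ => ((s : ℂ)⁻¹) • (CU.U (-s) g - g)) (𝓝[≠] 0) (𝓝 (-g')) := by
    have h1 := (hU.comp hneg).neg
    refine h1.congr fun s => ?_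
    simp only [Function.comp]
    rw [← neg_smul]
    congr 1
    push_cast
    rw [inv_neg, neg_neg]
  have hx := ((T.symm : H →L[ℂ] L2 K).continuous.tendsto _).comp hU'
  set x0 : L2 K := (T.symm : H →L[ℂ] L2 K) (-g') with hx0
  -- the first factor
  have hz : Tendsto (fun s : ℝ => ‖((s : ℂ)⁻¹) •
      mul2 (psi CU CV s) (psi_le CU CV s) (T.symm (CU.U (-s) g - g))‖) (𝓝[≠] 0) (𝓝 0) := by
    have h1 : Tendsto (fun s : ℝ => ‖mul2 (psi CU CV s) (psi_le CU CV s) x0‖) (𝓝[≠] 0) (𝓝 0) :=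
      mul2_tendsto _ _ (fun k => (psi_tendsto CU CV k).mono_left nhdsWithin_le_nhds) x0
    have h2 : Tendsto (fun s : ℝ => 2 * ‖(T.symm : H →L[ℂ] L2 K)
        (((s : ℂ)⁻¹) • (CU.U (-s) g - g)) - x0‖) (𝓝[≠] 0) (𝓝 0) := by
      have h3 := ((hx.sub_const x0).norm).const_mul 2
      simpa using h3
    have h3 := h2.add h1
    rw [add_zero] at h3
    refine squeeze_zero (fun s => norm_nonneg _) (fun s => ?_) h3
    rw [← mul2_smul]
    have h4 : ((s : ℂ)⁻¹) • T.symm (CU.U (-s) g - g) =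
      (T.symm : H →L[ℂ] L2 K) (((s : ℂ)⁻¹) • (CU.U (-s) g - g)) := by
      rw [map_smul]; rfl
    rw [h4]
    set w := (T.symm : H →L[ℂ] L2 K) (((s : ℂ)⁻¹) • (CU.U (-s) g - g)) with hw
    calc ‖mul2 (psi CU CV s) (psi_le CU CV s) w‖
        = ‖mul2 (psi CU CV s) (psi_le CU CV s) (w - x0) +
          mul2 (psi CU CV s) (psi_le CU CV s) x0‖ := by rw [mul2_sub, sub_add_cancel]
      _ ≤ _ := (norm_add_le _ _).trans (add_le_add_left (mul2_norm_le _ _ _) _)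
  -- the second factor
  have hy : ∀ s : ℝ, s ≠ 0 → ‖((s : ℂ)⁻¹) • RR T (CV.U (-s) γ - γ)‖ ≤
      ‖RR T‖ * (N ^ 2 * M) := by
    intro s hs
    have h1 : ‖CV.U (-s) γ - γ‖ ≤ N ^ 2 * (M * |s|) := by
      refine (dual_lip hT hcomp CV (-s)).trans ?_
      have := hV (-s)
      rw [abs_neg] at this
      gcongr
    rw [norm_smul, norm_inv, Complex.norm_real, Real.norm_eq_abs]
    have hs0 : 0 < |s| := abs_pos.2 hs
    rw [inv_mul_le_iff₀ hs0]
    calc ‖RR T (CV.U (-s) γ - γ)‖ ≤ ‖RR T‖ * ‖CV.U (-s) γ - γ‖ := ContinuousLinearMap.le_opNorm _ _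
      _ ≤ ‖RR T‖ * (N ^ 2 * (M * |s|)) := by gcongr
      _ = _ := by ring
  -- the left side
  have hL : ∀ s : ℝ, ⟪CV.U s g - g, CU.U s γ - γ⟫_ℂ - ⟪CU.U (-s) g - g, CV.U (-s) γ - γ⟫_ℂ =
      (Complex.exp (Complex.I * (θ * s * s)) - 1) * ⟪CV.U s (CU.U (-s) g), γ⟫_ℂ := by
    intro s
    have e1 : ⟪CV.U s g, CU.U s γ⟫_ℂ =
        Complex.exp (Complex.I * (θ * s * s)) * ⟪CV.U s (CU.U (-s) g), γ⟫_ℂ := by
      rw [← CU.adj', hUV, inner_smul_left, ← Complex.exp_conj]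
      congr 2
      simp
    have e2 : ⟪CU.U (-s) g, CV.U (-s) γ⟫_ℂ = ⟪CV.U s (CU.U (-s) g), γ⟫_ℂ := (CV.adj _ _ _).symm
    have e3 : ⟪g, CV.U (-s) γ⟫_ℂ = ⟪CV.U s g, γ⟫_ℂ := (CV.adj _ _ _).symm
    have e4 : ⟪g, CU.U s γ⟫_ℂ = ⟪CU.U (-s) g, γ⟫_ℂ := (CU.adj' _ _ _).symm
    simp only [inner_sub_left, inner_sub_right]
    rw [e1, e2, e3, e4]
    ring
  -- limit of the left side
  have hlim1 : Tendsto (fun s : ℝ => ((s:ℂ)⁻¹ * (s:ℂ)⁻¹) *
      ((Complex.exp (Complex.I * (θ * s * s)) - 1) * ⟪CV.U s (CU.U (-s) g), γ⟫_ℂ)) (𝓝[≠] 0)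
      (𝓝 (Complex.I * θ)) := by
    have h1 : Tendsto (fun s : ℝ => CV.U s (CU.U (-s) g)) (𝓝[≠] 0) (𝓝 g) := by
      rw [tendsto_iff_norm_sub_tendsto_zero]
      have h2 : Tendsto (fun s : ℝ => ‖CU.U (-s) g - g‖ + M * |s|) (𝓝[≠] 0) (𝓝 0) := by
        have h3 : Tendsto (fun s : ℝ => ‖CU.U (-s) g - g‖) (𝓝[≠] 0) (𝓝 0) := by
          have h4 : Tendsto (fun s : ℝ => (s:ℂ)) (𝓝[≠] 0) (𝓝 0) := by
            have : Tendsto (fun s : ℝ => (s:ℂ)) (𝓝 0) (𝓝 ((0:ℝ):ℂ)) :=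
              Complex.continuous_ofReal.tendsto 0
            simpa using this.mono_left nhdsWithin_le_nhds
          have h5 := (h4.smul hU').norm
          rw [zero_smul, norm_zero] at h5
          refine h5.congr' ?_
          filter_upwards [self_mem_nhdsWithin] with s hs
          rw [smul_smul, mul_inv_cancel₀ (by exact_mod_cast hs), one_smul]
        have h6 : Tendsto (fun s : ℝ => M * |s|) (𝓝[≠] 0) (𝓝 0) := by
          have : Tendsto (fun s : ℝ => M * |s|) (𝓝 0) (𝓝 (M * |0|)) :=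
            (continuous_abs.tendsto 0).const_mul M
          simpa using this.mono_left nhdsWithin_le_nhds
        simpa using h3.add h6
      refine squeeze_zero (fun s => norm_nonneg _) (fun s => ?_) h2
      calc ‖CV.U s (CU.U (-s) g) - g‖
          = ‖CV.U s (CU.U (-s) g - g) + (CV.U s g - g)‖ := by rw [map_sub]; congr 1; abel
        _ ≤ ‖CV.U s (CU.U (-s) g - g)‖ + ‖CV.U s g - g‖ := norm_add_le _ _
        _ ≤ _ := by
            rw [LinearIsometry.norm_map]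
            gcongr
            exact hV s
    have h2 : Tendsto (fun s : ℝ => ⟪CV.U s (CU.U (-s) g), γ⟫_ℂ) (𝓝[≠] 0) (𝓝 1) := by
      have h3 : Tendsto (fun s : ℝ => ⟪CV.U s (CU.U (-s) g), γ⟫_ℂ) (𝓝[≠] 0) (𝓝 ⟪g, γ⟫_ℂ) :=
        h1.inner tendsto_const_nhds
      rw [← inner_conj_symm, hγ, gam_zero hT, map_one] at h3
      exact h3
    have h3 : Tendsto (fun s : ℝ => ((s:ℂ)⁻¹ * (s:ℂ)⁻¹) *
        (Complex.exp (Complex.I * (θ * s * s)) - 1)) (𝓝[≠] 0) (𝓝 (Complex.I * θ)) := by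
      have h4 : HasDerivAt (fun z : ℂ => Complex.exp (Complex.I * θ * z)) (Complex.I * θ) 0 := by
        have h5 : HasDerivAt (fun z : ℂ => Complex.I * θ * z) (Complex.I * θ) 0 := by
          simpa using (hasDerivAt_id (0:ℂ)).const_mul (Complex.I * θ)
        have := h5.cexp
        simpa using this
      rw [hasDerivAt_iff_tendsto_slope] at h4
      have h6 : Tendsto (fun s : ℝ => (s:ℂ) * (s:ℂ)) (𝓝[≠] 0) (𝓝[≠] 0) := by
        refine tendsto_nhdsWithin_iff.2 ⟨?_, ?_⟩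
        · have : Tendsto (fun s : ℝ => (s:ℂ) * (s:ℂ)) (𝓝 0) (𝓝 (((0:ℝ):ℂ) * ((0:ℝ):ℂ))) :=
            (Complex.continuous_ofReal.tendsto 0).mul (Complex.continuous_ofReal.tendsto 0)
          simpa using this.mono_left nhdsWithin_le_nhds
        · filter_upwards [self_mem_nhdsWithin] with s hs
          have : (s:ℂ) ≠ 0 := by exact_mod_cast hs
          exact mul_ne_zero this this
      have h7 := h4.comp h6
      refine h7.congr fun s => ?_
      simp only [Function.comp, slope_def_field, mul_zero, Complex.exp_zero, sub_zero]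
      rw [← mul_inv, div_eq_inv_mul]
      congr 3
      ring
    have h8 := h3.mul h2
    rw [mul_one] at h8
    refine h8.congr fun s => ?_
    ring
  -- limit of the right side
  have hlim2 : Tendsto (fun s : ℝ => ((s:ℂ)⁻¹ * (s:ℂ)⁻¹) *
      ((Complex.exp (Complex.I * (θ * s * s)) - 1) * ⟪CV.U s (CU.U (-s) g), γ⟫_ℂ)) (𝓝[≠] 0)
      (𝓝 0) := by
    rw [tendsto_zero_iff_norm_tendsto_zero]
    have h1 := hz.mul_const (‖RR T‖ * (N ^ 2 * M))
    rw [zero_mul] at h1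
    refine squeeze_zero' (Eventually.of_forall fun s => norm_nonneg _) ?_ h1
    filter_upwards [self_mem_nhdsWithin] with s hs
    rw [← hL, hγ, key hT hcomp]
    have h2 : ((s:ℂ)⁻¹ * (s:ℂ)⁻¹) * ⟪mul2 (psi CU CV s) (psi_le CU CV s)
        (T.symm (CU.U (-s) g - g)), RR T (CV.U (-s) (Gam T 0) - Gam T 0)⟫_ℂ =
        ⟪((s:ℂ)⁻¹) • mul2 (psi CU CV s) (psi_le CU CV s) (T.symm (CU.U (-s) g - g)),
          ((s:ℂ)⁻¹) • RR T (CV.U (-s) (Gam T 0) - Gam T 0)⟫_ℂ := by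
      rw [inner_smul_left, inner_smul_right, map_inv₀, Complex.conj_ofReal]
      ring
    rw [h2]
    refine (norm_inner_le_norm _ _).trans ?_
    exact mul_le_mul_of_nonneg_left (hy s hs) (norm_nonneg _)
  have h := tendsto_nhds_unique hlim1 hlim2
  rcases mul_eq_zero.1 h with h | h
  · exact Complex.I_ne_zero h
  · exact hθ (by exact_mod_cast h)

end Pool.Agent.TH332.BL
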