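import Pool.Agent.TH332.BL.Main2

/-! # Time-frequency shifts on `L²(ℝ^d)` -/

set_option autoImplicit false

open Filter Topology MeasureTheory
open scoped InnerProductSpace ComplexConjugate

namespace Pool.Agent.TH332.BL

variable {d : ℕ}

/-- the space `ℝ^d` -/
abbrev X (d : ℕ) : Type := Fin d → ℝ

/-- `L²(ℝ^d)` -/
abbrev HH (d : ℕ) : Type := Lp ℂ 2 (volume : Measure (X d))

/-- the character `x ↦ e^{2πi b·x}` -/
noncomputable def ch (b x : X d) : ℂ :=
  Complex.exp (2 * (Real.pi : ℂ) * Complex.I * ((∑ j, b j * x j : ℝ) : ℂ))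

theorem ch_norm (b x : X d) : ‖ch b x‖ = 1 := by
  unfold ch
  rw [show 2 * (Real.pi : ℂ) * Complex.I * ((∑ j, b j * x j : ℝ) : ℂ) =
    ((2 * Real.pi * (∑ j, b j * x j) : ℝ) : ℂ) * Complex.I by push_cast; ring]
  exact Complex.norm_exp_ofReal_mul_I _

theorem ch_add_left (b b' x : X d) : ch (b + b') x = ch b x * ch b' x := by
  unfold ch
  rw [← Complex.exp_add]
  congr 1
  simp only [Pi.add_apply, add_mul, Finset.sum_add_distrib]
  push_cast; ring

theorem ch_add_right (b x y : X d) : ch b (x + y) = ch b x * ch b y := by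
  unfold ch
  rw [← Complex.exp_add]
  congr 1
  simp only [Pi.add_apply, mul_add, Finset.sum_add_distrib]
  push_cast; ring

theorem ch_zero_left (x : X d) : ch 0 x = 1 := by
  unfold ch; simp

theorem ch_zero_right (b : X d) : ch b 0 = 1 := by
  unfold ch; simp

theorem ch_neg_right (b x : X d) : ch b (-x) = (ch b x)⁻¹ := by
  have h := ch_add_right b x (-x)
  rw [add_neg_cancel, ch_zero_right] at h
  exact eq_inv_of_mul_eq_one_right h.symm

theorem ch_continuous (b : X d) : Continuous (ch b) := by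
  unfold ch; fun_prop

/-- time-frequency shift of a function -/
noncomputable def wf (a b : X d) (f : X d → ℂ) (x : X d) : ℂ := ch b x * f (x - a)

theorem wf_norm (a b : X d) (f : X d → ℂ) (x : X d) : ‖wf a b f x‖ = ‖f (x - a)‖ := by
  unfold wf; rw [norm_mul, ch_norm, one_mul]

theorem wf_memLp (a b : X d) {f : X d → ℂ} (hf : MemLp f 2 volume) : MemLp (wf a b f) 2 volume := by
  have h := hf.comp_measurePreserving (measurePreserving_sub_right volume a)
  refine h.congr_norm ((ch_continuous b).aestronglyMeasurable.mul h.1) ?_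
  exact Eventually.of_forall fun x => (wf_norm a b f x).symm

theorem wf_eLpNorm (a b : X d) {f : X d → ℂ} (hf : MemLp f 2 volume) :
    eLpNorm (wf a b f) 2 volume = eLpNorm f 2 volume := by
  rw [← eLpNorm_comp_measurePreserving hf.1 (measurePreserving_sub_right volume a)]
  exact eLpNorm_congr_norm_ae (Eventually.of_forall fun x => wf_norm a b f x)

theorem shift_ae {f h : X d → ℂ} (a : X d) (hf : f =ᵐ[volume] h) :
    ∀ᵐ x, f (x - a) = h (x - a) :=
  (measurePreserving_sub_right volume a).quasiMeasurePreserving.ae hf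

theorem wf_congr (a b : X d) {f h : X d → ℂ} (hf : f =ᵐ[volume] h) :
    wf a b f =ᵐ[volume] wf a b h := by
  filter_upwards [shift_ae a hf] with x hx
  unfold wf; rw [hx]

/-- time-frequency shift as an operator -/
noncomputable def W (a b : X d) : HH d →ₗᵢ[ℂ] HH d where
  toFun f := (wf_memLp a b (Lp.memLp f)).toLp _
  map_add' f h := by
    rw [← MemLp.toLp_add]
    apply MemLp.toLp_congr
    filter_upwards [shift_ae a (Lp.coeFn_add f h)] with x hx
    simp only [wf, Pi.add_apply]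
    rw [hx]; simp only [Pi.add_apply]; ring
  map_smul' c f := by
    rw [RingHom.id_apply, ← MemLp.toLp_const_smul]
    apply MemLp.toLp_congr
    filter_upwards [shift_ae a (Lp.coeFn_smul c f)] with x hx
    simp only [wf, Pi.smul_apply, smul_eq_mul]
    rw [hx]; simp only [Pi.smul_apply, smul_eq_mul]; ring
  norm_map' f := by
    show ‖(wf_memLp a b (Lp.memLp f)).toLp _‖ = _
    rw [Lp.norm_toLp, wf_eLpNorm a b (Lp.memLp f), Lp.norm_def]

theorem W_coe (a b : X d) (f : HH d) : (W a b f : X d → ℂ) =ᵐ[volume] wf a b f :=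
  MemLp.coeFn_toLp (wf_memLp a b (Lp.memLp f))

theorem W_toLp (a b : X d) {f : X d → ℂ} (hf : MemLp f 2 volume) :
    W a b (hf.toLp f) = (wf_memLp a b hf).toLp _ := by
  exact MemLp.toLp_congr (wf_memLp a b (Lp.memLp (hf.toLp f))) (wf_memLp a b hf)
    (wf_congr a b hf.coeFn_toLp)

theorem W_comp (a b a' b' : X d) (f : HH d) :
    W a b (W a' b' f) = (ch b' a)⁻¹ • W (a + a') (b + b') f := by
  apply Lp.ext
  filter_upwards [W_coe a b (W a' b' f), shift_ae a (W_coe a' b' f),
    Lp.coeFn_smul (ch b' a)⁻¹ (W (a + a') (b + b') f), W_coe (a + a') (b + b') f] with x h1 h2 h3 h4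
  rw [h1, h3, Pi.smul_apply, h4]
  simp only [wf, smul_eq_mul]
  rw [h2]
  simp only [wf]
  rw [ch_add_left, sub_eq_add_neg x a, ch_add_right b' x (-a), ch_neg_right,
    show x + -a - a' = x - (a + a') by abel]
  ring

theorem W_zero (f : HH d) : W 0 0 f = f := by
  apply Lp.ext
  filter_upwards [W_coe 0 0 f] with x h1
  rw [h1]
  simp [wf, ch_zero_left]

theorem W_inner (a b a' b' : X d) (f h : HH d) :
    ⟪W a b f, W a' b' h⟫_ℂ = ch (b' - b) a * ⟪f, W (a' - a) (b' - b) h⟫_ℂ := by
  have h1 := W_comp a b (a' - a) (b' - b) h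
  rw [add_sub_cancel, add_sub_cancel] at h1
  have h0 : ch (b' - b) a ≠ 0 := by
    intro h2
    have := ch_norm (b' - b) a
    rw [h2, norm_zero] at this
    exact zero_ne_one this
  have h2 : W a' b' h = ch (b' - b) a • W a b (W (a' - a) (b' - b) h) := by
    rw [h1, smul_smul, mul_inv_cancel₀ h0, one_smul]
  rw [h2, inner_smul_right, LinearIsometry.inner_map_map]

/-- lattice vector -/
noncomputable def vv (M : Matrix (Fin d ⊕ Fin d) (Fin d ⊕ Fin d) ℝ) (k : Fin d ⊕ Fin d → ℤ) :
    Fin d ⊕ Fin d → ℝ := Matrix.mulVec M (fun i => ((k i : ℤ) : ℝ))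

theorem vv_sub (M : Matrix (Fin d ⊕ Fin d) (Fin d ⊕ Fin d) ℝ) (k l : Fin d ⊕ Fin d → ℤ) :
    vv M (k - l) = vv M k - vv M l := by
  unfold vv
  rw [← Matrix.mulVec_sub]
  congr 1
  funext i
  simp

theorem vv_zero (M : Matrix (Fin d ⊕ Fin d) (Fin d ⊕ Fin d) ℝ) : vv M 0 = 0 := by
  have := vv_sub M 0 0
  simpa using this

/-- translation part -/
noncomputable def aM (M : Matrix (Fin d ⊕ Fin d) (Fin d ⊕ Fin d) ℝ) (k : Fin d ⊕ Fin d → ℤ) :
    X d := fun j => vv M k (Sum.inl j)

/-- modulation part -/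
noncomputable def bM (M : Matrix (Fin d ⊕ Fin d) (Fin d ⊕ Fin d) ℝ) (k : Fin d ⊕ Fin d → ℤ) :
    X d := fun j => vv M k (Sum.inr j)

theorem aM_sub (M : Matrix (Fin d ⊕ Fin d) (Fin d ⊕ Fin d) ℝ) (k l : Fin d ⊕ Fin d → ℤ) :
    aM M (k - l) = aM M k - aM M l := by
  funext j; simp [aM, vv_sub]

theorem bM_sub (M : Matrix (Fin d ⊕ Fin d) (Fin d ⊕ Fin d) ℝ) (k l : Fin d ⊕ Fin d → ℤ) :
    bM M (k - l) = bM M k - bM M l := by
  funext j; simp [bM, vv_sub]

theorem aM_zero (M : Matrix (Fin d ⊕ Fin d) (Fin d ⊕ Fin d) ℝ) : aM M 0 = 0 := by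
  funext j; simp [aM, vv_zero]

theorem bM_zero (M : Matrix (Fin d ⊕ Fin d) (Fin d ⊕ Fin d) ℝ) : bM M 0 = 0 := by
  funext j; simp [bM, vv_zero]

/-- the lattice of time-frequency shifts -/
noncomputable def SS (M : Matrix (Fin d ⊕ Fin d) (Fin d ⊕ Fin d) ℝ) :
    TF (Fin d ⊕ Fin d → ℤ) (HH d) where
  π k := W (aM M k) (bM M k)
  c k l := ch (bM M l - bM M k) (aM M k)
  hc k l := ch_norm _ _
  hπ k l f h := by
    rw [W_inner, aM_sub, bM_sub]
  hπ0 f := by rw [aM_zero, bM_zero, W_zero]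

theorem ch_single_left (j : Fin d) (s : ℝ) (x : X d) :
    ch (Pi.single j s) x = Complex.exp (2 * (Real.pi : ℂ) * Complex.I * ((s * x j : ℝ) : ℂ)) := by
  unfold ch
  congr 3
  rw [Finset.sum_eq_single j]
  · simp
  · intro i _ hi; simp [hi]
  · simp

theorem ch_single_right (j : Fin d) (s : ℝ) (x : X d) :
    ch x (Pi.single j s) = Complex.exp (2 * (Real.pi : ℂ) * Complex.I * ((x j * s : ℝ) : ℂ)) := by
  unfold ch
  congr 3
  rw [Finset.sum_eq_single j]
  · simp
  · intro i _ hi; simp [hi]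
  · simp

/-- modulations -/
noncomputable def CU (M : Matrix (Fin d ⊕ Fin d) (Fin d ⊕ Fin d) ℝ) (j : Fin d) : Cov (SS M) where
  U s := W 0 (Pi.single j s)
  ω s k := ch (Pi.single j s) (aM M k)
  hω s k := ch_norm _ _
  hω0 s := by rw [aM_zero, ch_zero_right]
  hU s k f := by
    have h0 : ch (Pi.single j s) (aM M k) ≠ 0 := by
      intro h2
      have := ch_norm (Pi.single j s) (aM M k)
      rw [h2, norm_zero] at this
      exact zero_ne_one this
    show W 0 (Pi.single j s) (W (aM M k) (bM M k) f) = _ • W (aM M k) (bM M k) (W 0 (Pi.single j s) f)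
    rw [W_comp, W_comp, ch_zero_right, smul_smul, mul_inv_cancel₀ h0, inv_one, zero_add, add_zero,
      add_comm _ (bM M k)]
  hinv s f := by
    rw [W_comp, ch_zero_right, inv_one, one_smul, add_zero, ← Pi.single_add, add_neg_cancel,
      Pi.single_zero, W_zero]
  hlim k := by
    simp only [ch_single_left]
    have h : Continuous fun s : ℝ =>
      Complex.exp (2 * (Real.pi : ℂ) * Complex.I * ((s * aM M k j : ℝ) : ℂ)) := by fun_prop
    have := h.tendsto 0
    simpa using this

/-- translations -/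
noncomputable def CV (M : Matrix (Fin d ⊕ Fin d) (Fin d ⊕ Fin d) ℝ) (j : Fin d) : Cov (SS M) where
  U s := W (Pi.single j s) 0
  ω s k := (ch (bM M k) (Pi.single j s))⁻¹
  hω s k := by rw [norm_inv, ch_norm, inv_one]
  hω0 s := by rw [bM_zero, ch_zero_left, inv_one]
  hU s k f := by
    show W (Pi.single j s) 0 (W (aM M k) (bM M k) f) = _ • W (aM M k) (bM M k) (W (Pi.single j s) 0 f)
    rw [W_comp, W_comp, ch_zero_left, inv_one, one_smul, zero_add, add_zero,
      add_comm _ (aM M k)]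
  hinv s f := by
    rw [W_comp, ch_zero_left, inv_one, one_smul, add_zero, ← Pi.single_add, add_neg_cancel,
      Pi.single_zero, W_zero]
  hlim k := by
    simp only [ch_single_right]
    have h : Continuous fun s : ℝ =>
      (Complex.exp (2 * (Real.pi : ℂ) * Complex.I * ((bM M k j * s : ℝ) : ℂ)))⁻¹ := by
      refine Continuous.inv₀ (by fun_prop) fun s => Complex.exp_ne_zero _
    have := h.tendsto 0
    simpa using this

theorem CUV (M : Matrix (Fin d ⊕ Fin d) (Fin d ⊕ Fin d) ℝ) (j : Fin d) (s t : ℝ) (f : HH d) :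
    (CU M j).U s ((CV M j).U t f) =
      Complex.exp (Complex.I * (((2 * Real.pi : ℝ) : ℂ) * s * t)) • (CV M j).U t ((CU M j).U s f) := by
  show W 0 (Pi.single j s) (W (Pi.single j t) 0 f) = _ • W (Pi.single j t) 0 (W 0 (Pi.single j s) f)
  rw [W_comp, W_comp, ch_zero_left, inv_one, one_smul, zero_add, add_zero, add_zero, zero_add,
    smul_smul, ch_single_left, Pi.single_eq_same]
  rw [show Complex.exp (Complex.I * (((2 * Real.pi : ℝ) : ℂ) * s * t)) =
    Complex.exp (2 * (Real.pi : ℂ) * Complex.I * ((s * t : ℝ) : ℂ)) by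
      congr 1; push_cast; ring]
  rw [mul_inv_cancel₀ (Complex.exp_ne_zero _), one_smul]

end Pool.Agent.TH332.BL
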