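import Pool.Agent.TH332.BL.Ops
import Pool.Agent.H456R3.S.F1

/-! # Difference quotients -/

set_option autoImplicit false

open Filter Topology MeasureTheory
open scoped InnerProductSpace ComplexConjugate ENNReal

namespace Pool.Agent.TH332.BL

variable {d : ℕ}

theorem hh_norm_sq (f : HH d) : ‖f‖ ^ 2 = ∫ x, ‖f x‖ ^ 2 := by
  have h := inner_self_eq_norm_sq_to_K (𝕜 := ℂ) f
  rw [L2.inner_def] at h
  have h2 : ∀ x, ⟪f x, f x⟫_ℂ = ((‖f x‖ ^ 2 : ℝ) : ℂ) := by
    intro x
    rw [inner_self_eq_norm_sq_to_K]; norm_cast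
  simp only [h2] at h
  have h3 : ∫ x, ((‖f x‖ ^ 2 : ℝ) : ℂ) = ((∫ x, ‖f x‖ ^ 2 : ℝ) : ℂ) := integral_ofReal
  rw [h3] at h
  have h4 : ((∫ x, ‖f x‖ ^ 2 : ℝ) : ℂ) = ((‖f‖ ^ 2 : ℝ) : ℂ) := by
    rw [h]; push_cast; rfl
  exact (Complex.ofReal_injective h4).symm

theorem toLp_norm_sq {f : X d → ℂ} (hf : MemLp f 2 volume) : ‖hf.toLp f‖ ^ 2 = ∫ x, ‖f x‖ ^ 2 := by
  rw [hh_norm_sq]
  refine integral_congr_ae ?_
  filter_upwards [hf.coeFn_toLp] with x hx
  rw [hx]

/-- modulations are differentiable on functions with a finite second moment -/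
theorem quotU (M : Matrix (Fin d ⊕ Fin d) (Fin d ⊕ Fin d) ℝ) (j : Fin d) {g : X d → ℂ}
    (hg : MemLp g 2 volume) (hx : Integrable (fun x : X d => (∑ j, x j ^ 2) * ‖g x‖ ^ 2) volume) :
    ∃ g' : HH d, Tendsto (fun s : ℝ => ((s : ℂ)⁻¹) • ((CU M j).U s (hg.toLp g) - hg.toLp g))
      (𝓝[≠] 0) (𝓝 g') := by
  have hm : AEStronglyMeasurable (fun x : X d => 2 * (Real.pi : ℂ) * Complex.I * (x j : ℂ) * g x)
      volume := (by fun_prop : Continuous fun x : X d =>
        2 * (Real.pi : ℂ) * Complex.I * (x j : ℂ)).aestronglyMeasurable.mul hg.1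
  have hI : Integrable (fun x : X d => (2 * Real.pi * |x j|) ^ 2 * ‖g x‖ ^ 2) volume := by
    have h1 := hx.const_mul ((2 * Real.pi) ^ 2)
    refine h1.mono' ?_ (Eventually.of_forall fun x => ?_)
    · exact (by fun_prop : Continuous fun x : X d =>
        (2 * Real.pi * |x j|) ^ 2).aestronglyMeasurable.mul (hg.1.norm.pow 2)
    · rw [Real.norm_eq_abs, abs_of_nonneg (by positivity), mul_pow, sq_abs, mul_assoc]
      refine mul_le_mul_of_nonneg_left ?_ (by positivity)
      refine mul_le_mul_of_nonneg_right ?_ (by positivity)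
      exact Finset.single_le_sum (f := fun i => x i ^ 2) (fun i _ => sq_nonneg _)
        (Finset.mem_univ j)
  have hg' : MemLp (fun x : X d => 2 * (Real.pi : ℂ) * Complex.I * (x j : ℂ) * g x) 2 volume := by
    rw [memLp_two_iff_integrable_sq_norm hm]
    refine hI.congr (Eventually.of_forall fun x => ?_)
    simp only [norm_mul, Complex.norm_I, Complex.norm_real, Real.norm_eq_abs, Complex.norm_two,
      abs_of_nonneg Real.pi_pos.le]
    ring
  refine ⟨hg'.toLp _, ?_⟩
  rw [tendsto_iff_norm_sub_tendsto_zero]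
  -- the difference as a function
  let q : ℝ → X d → ℂ := fun s x => ((s:ℂ)⁻¹ * (Complex.exp (Complex.I * ((2 * Real.pi * (s * x j) : ℝ) : ℂ)) - 1)
    - 2 * (Real.pi : ℂ) * Complex.I * (x j : ℂ)) * g x
  have hq : ∀ s : ℝ, (((((s : ℂ)⁻¹) • ((CU M j).U s (hg.toLp g) - hg.toLp g)) - hg'.toLp _ : HH d) :
      X d → ℂ) =ᵐ[volume] q s := by
    intro s
    have hU : (CU M j).U s (hg.toLp g) = (wf_memLp 0 (Pi.single j s) hg).toLp _ := W_toLp _ _ hg
    rw [hU]
    filter_upwards [Lp.coeFn_sub (((s : ℂ)⁻¹) • ((wf_memLp 0 (Pi.single j s) hg).toLp _ -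
        hg.toLp g)) (hg'.toLp _), Lp.coeFn_smul ((s : ℂ)⁻¹)
        ((wf_memLp 0 (Pi.single j s) hg).toLp _ - hg.toLp g),
      Lp.coeFn_sub ((wf_memLp 0 (Pi.single j s) hg).toLp _) (hg.toLp g),
      (wf_memLp 0 (Pi.single j s) hg).coeFn_toLp, hg.coeFn_toLp, hg'.coeFn_toLp]
      with x h1 h2 h3 h4 h5 h6
    rw [h1, Pi.sub_apply, h2, Pi.smul_apply, h3, Pi.sub_apply, h4, h5, h6]
    simp only [wf, sub_zero, smul_eq_mul, q, ch_single_left]
    rw [show Complex.I * ((2 * Real.pi * (s * x j) : ℝ) : ℂ) =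
      2 * (Real.pi : ℂ) * Complex.I * ((s * x j : ℝ) : ℂ) by push_cast; ring]
    ring
  have hn : ∀ s : ℝ, ‖(((s : ℂ)⁻¹) • ((CU M j).U s (hg.toLp g) - hg.toLp g)) - hg'.toLp _‖ ^ 2 =
      ∫ x, ‖q s x‖ ^ 2 := by
    intro s
    rw [hh_norm_sq]
    refine integral_congr_ae ?_
    filter_upwards [hq s] with x hx
    rw [hx]
  have hlim : Tendsto (fun s : ℝ => ∫ x, ‖q s x‖ ^ 2) (𝓝[≠] 0) (𝓝 (∫ x : X d, (0:ℝ))) := by
    refine tendsto_integral_filter_of_dominated_convergence
      (fun x => 4 * ((2 * Real.pi * |x j|) ^ 2 * ‖g x‖ ^ 2)) ?_ ?_ (hI.const_mul 4) ?_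
    · refine Eventually.of_forall fun s => ?_
      refine AEStronglyMeasurable.pow (AEStronglyMeasurable.norm ?_) 2
      exact (by fun_prop : Continuous fun x : X d =>
        ((s:ℂ)⁻¹ * (Complex.exp (Complex.I * ((2 * Real.pi * (s * x j) : ℝ) : ℂ)) - 1)
        - 2 * (Real.pi : ℂ) * Complex.I * (x j : ℂ))).aestronglyMeasurable.mul hg.1
    · filter_upwards [self_mem_nhdsWithin] with s hs
      refine Eventually.of_forall fun x => ?_
      rw [Real.norm_eq_abs, abs_of_nonneg (by positivity)]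
      have hs0 : 0 < |s| := abs_pos.2 hs
      have h1 : ‖((s:ℂ)⁻¹ * (Complex.exp (Complex.I * ((2 * Real.pi * (s * x j) : ℝ) : ℂ)) - 1)
          - 2 * (Real.pi : ℂ) * Complex.I * (x j : ℂ))‖ ≤ 2 * (2 * Real.pi * |x j|) := by
        refine (norm_sub_le _ _).trans ?_
        have h2 : ‖(s:ℂ)⁻¹ * (Complex.exp (Complex.I * ((2 * Real.pi * (s * x j) : ℝ) : ℂ)) - 1)‖ ≤
            2 * Real.pi * |x j| := by
          rw [norm_mul, norm_inv, Complex.norm_real, Real.norm_eq_abs, inv_mul_le_iff₀ hs0]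
          refine Real.norm_exp_I_mul_ofReal_sub_one_le.trans ?_
          rw [Real.norm_eq_abs, abs_mul, abs_mul, abs_mul, abs_of_pos Real.pi_pos, abs_two]
          apply le_of_eq; ring
        have h3 : ‖2 * (Real.pi : ℂ) * Complex.I * (x j : ℂ)‖ = 2 * Real.pi * |x j| := by
          simp only [norm_mul, Complex.norm_I, Complex.norm_real, Real.norm_eq_abs,
            Complex.norm_two, abs_of_nonneg Real.pi_pos.le]
          ring
        rw [h3]; linarith
      simp only [q]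
      rw [norm_mul, mul_pow]
      have h4 := pow_le_pow_left₀ (norm_nonneg _) h1 2
      have h5 := mul_le_mul_of_nonneg_right h4 (sq_nonneg ‖g x‖)
      refine h5.trans (le_of_eq ?_)
      ring
    · refine Eventually.of_forall fun x => ?_
      have h4 : HasDerivAt (fun s : ℝ => Complex.exp (Complex.I * ((2 * Real.pi * (s * x j) : ℝ) : ℂ)))
          (Complex.I * (2 * Real.pi * (x j) : ℂ)) 0 := by
        have h5 : HasDerivAt (fun s : ℝ => Complex.I * ((2 * Real.pi * (s * x j) : ℝ) : ℂ))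
            (Complex.I * (2 * Real.pi * (x j) : ℂ)) 0 := by
          have h6 : HasDerivAt (fun s : ℝ => 2 * Real.pi * (s * x j)) (2 * Real.pi * (1 * x j)) 0 :=
            ((hasDerivAt_id (0:ℝ)).mul_const (x j)).const_mul (2 * Real.pi)
          have h7 := h6.ofReal_comp.const_mul Complex.I
          refine h7.congr_deriv ?_
          push_cast; ring
        have := h5.cexp
        simpa using this
      rw [hasDerivAt_iff_tendsto_slope] at h4
      have h5 : Tendsto (fun s : ℝ => ‖q s x‖ ^ 2) (𝓝[≠] 0)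
          (𝓝 (‖(Complex.I * (2 * Real.pi * (x j) : ℂ) -
            2 * (Real.pi : ℂ) * Complex.I * (x j : ℂ)) * g x‖ ^ 2)) := by
        refine (((h4.sub_const _).mul_const (g x)).norm.pow 2).congr fun s => ?_
        simp only [q, slope_def_module, sub_zero, zero_mul, mul_zero, Complex.ofReal_zero,
          Complex.exp_zero, Complex.real_smul]
        push_cast
        rfl
      have h6 : (Complex.I * (2 * Real.pi * (x j) : ℂ) -
            2 * (Real.pi : ℂ) * Complex.I * (x j : ℂ)) = 0 := by ring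
      rw [h6, zero_mul, norm_zero] at h5
      simpa using h5
  rw [integral_zero] at hlim
  have h2 := hlim.sqrt
  rw [Real.sqrt_zero] at h2
  refine h2.congr fun s => ?_
  rw [← hn, Real.sqrt_sq (norm_nonneg _)]

end Pool.Agent.TH332.BL
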